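import Pool.Agent.H84.SM.Targets

/-!
# MP_70ba79_ag, board smc_modules: homogeneity of the sections in a chart

For a bihomogeneous `N` of weight `n`, an element `N1` with `gp G ^ M * N1 = Psi G d l N` is
weighted homogeneous of weight `n` in the variables `q` (weight 1) and `z` (weight 3).
-/

set_option autoImplicit false

namespace Pool.Agent.H55.SM

open MvPolynomial SC Pool.Agent.H27.LV Pool.Agent.H84.SM

/-- evaluation of weighted homogeneous polynomials at scaled points -/
theorem wh_aeval {k R σ : Type} [CommRing k] [CommRing R] [Algebra k R] (w : σ → ℕ)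
    {p : MvPolynomial σ k} {i : ℕ} (hp : IsWeightedHomogeneous w p i) (v : σ → R) (t : R) :
    aeval (fun s => t ^ w s * v s) p = t ^ i * aeval v p := by
  classical
  rw [aeval_def, aeval_def, eval₂_eq, eval₂_eq, Finset.mul_sum]
  refine Finset.sum_congr rfl fun m hm => ?_
  have h1 : Finsupp.weight w m = i := hp (mem_support_iff.1 hm)
  have h2 : ∏ s ∈ m.support, (t ^ w s * v s) ^ m s = t ^ i * ∏ s ∈ m.support, v s ^ m s := by
    have h3 : ∀ s ∈ m.support, (t ^ w s * v s) ^ m s = t ^ (m s * w s) * v s ^ m s := by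
      intro s _
      rw [mul_pow, ← pow_mul, mul_comm (w s)]
    rw [Finset.prod_congr rfl h3, Finset.prod_mul_distrib, Finset.prod_pow_eq_pow_sum]
    have h4 : ∑ s ∈ m.support, m s * w s = i := by
      rw [← h1, Finsupp.weight_apply, Finsupp.sum]
      rfl
    rw [h4]
  rw [h2]
  ring

variable {k : Type} [Field k]

/-- scaling of the variables `q` -/
noncomputable def sq : B2 k →ₐ[k] Polynomial (B2 k) :=
  aeval (Sum.elim (fun i => Polynomial.C (xb i)) (fun i => Polynomial.C (qb i) * Polynomial.X))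

/-- scaling of `q` and `z`; the outer variable is `z`, the inner one is the parameter -/
noncomputable def sz : P2 k →+* Polynomial (Polynomial (B2 k)) :=
  Polynomial.eval₂RingHom (R := B2 k) (S := Polynomial (Polynomial (B2 k)))
    ((Polynomial.C : Polynomial (B2 k) →+* Polynomial (Polynomial (B2 k))).comp
      ((sq : B2 k →ₐ[k] Polynomial (B2 k)) : B2 k →+* Polynomial (B2 k)))
    (Polynomial.C (Polynomial.X ^ 3) * Polynomial.X)

/-- constants -/
noncomputable def io : P2 k →+* Polynomial (Polynomial (B2 k)) :=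
  Polynomial.mapRingHom Polynomial.C

theorem sz_C (a : B2 k) : sz (Polynomial.C a) = Polynomial.C (sq a) := by
  unfold sz
  rw [Polynomial.coe_eval₂RingHom, Polynomial.eval₂_C]
  rfl

theorem sz_X : sz (Polynomial.X : P2 k) = Polynomial.C (Polynomial.X ^ 3) * Polynomial.X := by
  unfold sz
  rw [Polynomial.coe_eval₂RingHom, Polynomial.eval₂_X]

theorem io_C (a : B2 k) : io (Polynomial.C a) = Polynomial.C (Polynomial.C a) := by
  unfold io
  rw [Polynomial.coe_mapRingHom, Polynomial.map_C]

theorem io_X : io (Polynomial.X : P2 k) = Polynomial.X := by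
  unfold io
  rw [Polynomial.coe_mapRingHom, Polynomial.map_X]

theorem sq_x (P : MvPolynomial (Fin 3) k) :
    sq (aeval (xb (k := k)) P) = Polynomial.C (aeval (xb (k := k)) P) := by
  have h1 : (sq (k := k)).comp (aeval (xb (k := k))) =
      (Polynomial.CAlgHom (R := k) (A := B2 k)).comp (aeval (xb (k := k))) := by
    apply MvPolynomial.algHom_ext
    intro i
    rw [AlgHom.comp_apply, AlgHom.comp_apply, aeval_X]
    unfold sq xb
    rw [aeval_X]
    rfl
  exact DFunLike.congr_fun h1 P

theorem sq_xb (i : Fin 3) : sq (xb (k := k) i) = Polynomial.C (xb i) := by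
  unfold sq xb
  rw [aeval_X]
  rfl

theorem sq_qb (i : Fin 2) : sq (qb (k := k) i) = Polynomial.C (qb i) * Polynomial.X := by
  unfold sq qb
  rw [aeval_X]
  rfl

variable (G : MvPolynomial (Fin 3) k) (d : ℕ)

theorem sq_gr (l : Fin 3) : sq (gr G (xb (k := k)) l) = Polynomial.C (gr G (xb (k := k)) l) :=
  sq_x (pderiv l G)

theorem sq_chy (l i : Fin 3) : sq (chy G l i) = Polynomial.X * Polynomial.C (chy G l i) := by
  unfold chy
  split_ifs
  · rw [map_neg, map_add, map_mul, map_mul, sq_gr, sq_gr, sq_qb, sq_qb, map_neg, map_add, map_mul,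
      map_mul]
    ring
  · rw [map_mul, sq_gr, sq_qb, map_mul]
    ring
  · rw [map_mul, sq_gr, sq_qb, map_mul]
    ring

theorem sq_hs (l : Fin 3) : sq (hs G (xb (k := k)) (chy G l)) =
    Polynomial.X ^ 2 * Polynomial.C (hs G (xb (k := k)) (chy G l)) := by
  unfold hs
  rw [map_sum, map_sum, Finset.mul_sum]
  refine Finset.sum_congr rfl fun i _ => ?_
  rw [map_sum, map_sum, Finset.mul_sum]
  refine Finset.sum_congr rfl fun j _ => ?_
  rw [map_mul, map_mul, sq_x, sq_chy, sq_chy, map_mul, map_mul]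
  ring

theorem sz_chw (l : Fin 3) :
    sz (chw G d l) = Polynomial.C (Polynomial.X ^ 3) * io (chw G d l) := by
  unfold chw
  rw [map_sub, map_mul sz, sz_C, sz_C, sz_X, map_sub, map_mul io, io_C, io_C, io_X]
  have h1 : sq ((d : B2 k) * aeval (xb (k := k)) G) =
      Polynomial.C ((d : B2 k) * aeval (xb (k := k)) G) := by
    rw [map_mul, sq_x, map_natCast, map_mul, map_natCast]
  have h2 : sq (hs G (xb (k := k)) (chy G l) * (xb (l + 1) * qb 1 - xb (l + 2) * qb 0)) =
      Polynomial.X ^ 3 * Polynomial.C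
        (hs G (xb (k := k)) (chy G l) * (xb (l + 1) * qb 1 - xb (l + 2) * qb 0)) := by
    rw [map_mul, map_sub, map_mul, map_mul, sq_hs, sq_xb, sq_xb, sq_qb, sq_qb, map_mul, map_sub,
      map_mul, map_mul]
    ring
  have h3 : ∀ a b : B2 k, (Polynomial.C (Polynomial.X ^ 3 * Polynomial.C (a * b)) :
      Polynomial (Polynomial (B2 k))) =
      Polynomial.C (Polynomial.X ^ 3) * Polynomial.C (Polynomial.C (a * b)) := fun a b =>
    map_mul _ _ _
  rw [h1, h2, h3]
  ring

/-- the value of the substitution on coefficients -/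
theorem sq_sub {e i : ℕ} {a : A2 k} (ha : BH e i a) (l : Fin 3) :
    sq (aeval (Sum.elim (xb (k := k)) (chy G l)) a) =
      Polynomial.X ^ i * Polynomial.C (aeval (Sum.elim (xb (k := k)) (chy G l)) a) := by
  have h1 : (sq (k := k)).comp (aeval (Sum.elim (xb (k := k)) (chy G l))) =
      aeval (fun s => (Polynomial.X : Polynomial (B2 k)) ^ wy s *
        Polynomial.C (Sum.elim (xb (k := k)) (chy G l) s)) := by
    apply MvPolynomial.algHom_ext
    rintro (j | j)
    · rw [AlgHom.comp_apply, aeval_X, aeval_X]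
      show sq (xb j) = Polynomial.X ^ 0 * Polynomial.C (xb j)
      rw [sq_xb, pow_zero, one_mul]
    · rw [AlgHom.comp_apply, aeval_X, aeval_X]
      show sq (chy G l j) = Polynomial.X ^ 1 * Polynomial.C (chy G l j)
      rw [sq_chy, pow_one]
  have h2 : (Polynomial.CAlgHom (R := k) (A := B2 k)).comp
      (aeval (Sum.elim (xb (k := k)) (chy G l))) =
      aeval (fun s => Polynomial.C (Sum.elim (xb (k := k)) (chy G l) s)) := by
    apply MvPolynomial.algHom_ext
    intro j
    rw [AlgHom.comp_apply, aeval_X, aeval_X]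
    rfl
  have h3 := DFunLike.congr_fun h1 a
  have h4 := DFunLike.congr_fun h2 a
  rw [AlgHom.comp_apply] at h3 h4
  rw [h3, wh_aeval wy ha.2]
  congr 1
  exact h4.symm

/-- homogeneity of `Psi G d l N` -/
theorem sz_Psi {e n : ℕ} {N : R2 k} (hN : BHN e n N) (l : Fin 3) :
    sz (Psi G d l N) = Polynomial.C (Polynomial.X ^ n) * io (Psi G d l N) := by
  have h0 : Psi G d l N = ∑ j ∈ Finset.range (N.natDegree + 1),
      Polynomial.C (aeval (Sum.elim (xb (k := k)) (chy G l)) (N.coeff j)) * chw G d l ^ j := by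
    unfold Psi
    rw [Polynomial.coe_eval₂RingHom, Polynomial.eval₂_eq_sum_range]
    rfl
  rw [h0, map_sum, map_sum, Finset.mul_sum]
  refine Finset.sum_congr rfl fun j _ => ?_
  rw [map_mul sz, map_mul io, map_pow sz, map_pow io, sz_C, io_C, sz_chw]
  by_cases hj : 3 * j ≤ n
  · rw [sq_sub G ((hN j).1 hj) l, map_mul]
    have h1 : n = (n - 3 * j) + 3 * j := by omega
    have h2 : (Polynomial.C (Polynomial.X ^ n) : Polynomial (Polynomial (B2 k))) =
        Polynomial.C (Polynomial.X ^ (n - 3 * j)) * Polynomial.C (Polynomial.X ^ 3) ^ j := by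
      rw [← map_pow, ← map_mul, ← pow_mul, ← pow_add, ← h1]
    rw [h2]
    ring
  · push Not at hj
    rw [(hN j).2 hj, map_zero, map_zero, map_zero, zero_mul, map_zero, map_zero, zero_mul,
      mul_zero]

theorem gx_ne (hG : G ≠ 0) : aeval (xb (k := k)) G ≠ 0 := by
  have h1 : (aeval (xb (k := k)) : MvPolynomial (Fin 3) k →ₐ[k] B2 k) = rename Sum.inl := by
    apply MvPolynomial.algHom_ext
    intro i
    rw [aeval_X, rename_X]
    rfl
  rw [h1]
  intro h
  apply hG
  apply rename_injective (R := k) (Sum.inl : Fin 3 → Fin 3 ⊕ Fin 2) Sum.inl_injective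
  rw [h, map_zero]

/-- homogeneity of the section in a chart -/
theorem sz_N1 (hG : G ≠ 0) {e n M : ℕ} {N : R2 k} (hN : BHN e n N) {l : Fin 3} {N1 : P2 k}
    (h : gp G ^ M * N1 = Psi G d l N) :
    sz N1 = Polynomial.C (Polynomial.X ^ n) * io N1 := by
  have h1 := sz_Psi G d hN l
  rw [← h, map_mul sz, map_mul io, map_pow sz, map_pow io] at h1
  have h2 : sz (gp G) = Polynomial.C (Polynomial.C (aeval (xb (k := k)) G)) := by
    unfold gp
    rw [sz_C, sq_x]
  have h3 : io (gp G) = Polynomial.C (Polynomial.C (aeval (xb (k := k)) G)) := by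
    unfold gp
    rw [io_C]
  rw [h2, h3] at h1
  have h4 : (Polynomial.C (Polynomial.C (aeval (xb (k := k)) G)) :
      Polynomial (Polynomial (B2 k))) ^ M ≠ 0 := by
    apply pow_ne_zero
    rw [Ne, Polynomial.C_eq_zero, Polynomial.C_eq_zero]
    exact gx_ne G hG
  apply mul_left_cancel₀ h4
  rw [h1]
  ring

/-- coefficients of the scaling -/
theorem sz_coeff (p : P2 k) (j : ℕ) :
    (sz p).coeff j = sq (p.coeff j) * Polynomial.X ^ (3 * j) := by
  induction p using Polynomial.induction_on' with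
  | add p q hp hq => rw [map_add, Polynomial.coeff_add, hp, hq, Polynomial.coeff_add, map_add,
      add_mul]
  | monomial i a =>
    have h1 : sz (Polynomial.C a * Polynomial.X ^ i) =
        Polynomial.C (sq a * Polynomial.X ^ (3 * i)) * Polynomial.X ^ i := by
      rw [map_mul sz, map_pow sz, sz_C, sz_X]
      have h2 : (Polynomial.C (sq a * Polynomial.X ^ (3 * i)) : Polynomial (Polynomial (B2 k))) =
          Polynomial.C (sq a) * Polynomial.C (Polynomial.X ^ 3) ^ i := by
        rw [← map_pow, ← map_mul, ← pow_mul]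
      rw [h2]
      ring
    rw [← Polynomial.C_mul_X_pow_eq_monomial, h1, Polynomial.coeff_C_mul_X_pow,
      Polynomial.coeff_C_mul_X_pow]
    split_ifs with h
    · rw [h]
    · rw [map_zero, zero_mul]

/-- the degree in the variables `q` -/
def qd (m : Fin 3 ⊕ Fin 2 →₀ ℕ) : ℕ := m (Sum.inr 0) + m (Sum.inr 1)

theorem sq_monomial (m : Fin 3 ⊕ Fin 2 →₀ ℕ) (a : k) :
    sq (monomial m a) = Polynomial.C (monomial m a) * Polynomial.X ^ qd m := by
  have h1 : (monomial m a : B2 k) = algebraMap k (B2 k) a * ∏ s, X s ^ m s := by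
    rw [monomial_eq, Finsupp.prod_fintype _ _ (fun s => pow_zero _)]
    rfl
  rw [h1, map_mul, map_prod]
  have h2 : ∀ s : Fin 3 ⊕ Fin 2, sq (X s ^ m s : B2 k) = (sq (X s : B2 k)) ^ m s :=
    fun s => map_pow _ _ _
  simp only [h2]
  rw [Fintype.prod_sum_type, Fintype.prod_sum_type]
  have h3 : ∀ i : Fin 3, sq (X (Sum.inl i) : B2 k) = Polynomial.C (X (Sum.inl i)) :=
    fun i => sq_xb i
  have h4 : ∀ i : Fin 2, sq (X (Sum.inr i) : B2 k) = Polynomial.C (X (Sum.inr i)) *
      Polynomial.X := fun i => sq_qb i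
  simp only [h3, h4]
  rw [Fin.prod_univ_two, Fin.prod_univ_two, Fin.prod_univ_three, Fin.prod_univ_three,
    AlgHom.commutes]
  have h5 : algebraMap k (Polynomial (B2 k)) a = Polynomial.C (algebraMap k (B2 k) a) := rfl
  rw [h5]
  simp only [map_mul, map_pow]
  unfold qd
  ring

theorem sq_coeff (p : B2 k) (t : ℕ) (m : Fin 3 ⊕ Fin 2 →₀ ℕ) :
    coeff m ((sq p).coeff t) = if qd m = t then coeff m p else 0 := by
  classical
  induction p using MvPolynomial.induction_on' with
  | monomial u a =>
    rw [sq_monomial, Polynomial.coeff_C_mul_X_pow, coeff_monomial]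
    by_cases h2 : u = m
    · subst h2
      rw [if_pos rfl]
      by_cases h3 : t = qd u
      · rw [if_pos h3, if_pos h3.symm, coeff_monomial, if_pos rfl]
      · rw [if_neg h3, if_neg (fun h => h3 h.symm), coeff_zero]
    · rw [if_neg h2, ite_self]
      by_cases h3 : t = qd u
      · rw [if_pos h3, coeff_monomial, if_neg h2]
      · rw [if_neg h3, coeff_zero]
  | add p q hp hq =>
    rw [map_add, Polynomial.coeff_add, coeff_add, hp, hq, coeff_add]
    split_ifs
    · rfl
    · rw [add_zero]

/-- homogeneity of the section in a chart, by coefficients -/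
theorem wh_N1 (hG : G ≠ 0) {e n M : ℕ} {N : R2 k} (hN : BHN e n N) {l : Fin 3} {N1 : P2 k}
    (h : gp G ^ M * N1 = Psi G d l N) (j : ℕ) (m : Fin 3 ⊕ Fin 2 →₀ ℕ)
    (hm : coeff m (N1.coeff j) ≠ 0) : qd m + 3 * j = n := by
  have h1 := congrArg (fun p => p.coeff j) (sz_N1 G d hG hN h)
  beta_reduce at h1
  rw [sz_coeff] at h1
  have h2 : (Polynomial.C (Polynomial.X ^ n) * io N1).coeff j =
      Polynomial.C (N1.coeff j) * Polynomial.X ^ n := by
    rw [Polynomial.coeff_C_mul]
    unfold io
    rw [Polynomial.coe_mapRingHom, Polynomial.coeff_map, mul_comm]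
  rw [h2] at h1
  have h3 := congrArg (fun p => coeff m (p.coeff (qd m + 3 * j))) h1
  beta_reduce at h3
  rw [Polynomial.coeff_mul_X_pow, sq_coeff, if_pos rfl, Polynomial.coeff_C_mul_X_pow] at h3
  by_contra h4
  rw [if_neg h4, coeff_zero] at h3
  exact hm h3

end Pool.Agent.H55.SM
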