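import Pool.Agent.H84.SM.Targets2
import Pool.Agent.H55.SM.Sc

/-!
# MP_70ba79_ag, board smc_modules, rows CRE and AFE: the equation of a connection does not depend on
the derivation; the equation in affine coordinates
-/

set_option autoImplicit false

namespace Pool.Agent.H55.SM

open MvPolynomial SC Pool.Agent.H27.LV Pool.Agent.H84.SM

section

variable {k : Type} [Field k]

/-- the substitution `y ↦ y + T x` -/
noncomputable def sft : A2 k →ₐ[k] Polynomial (A2 k) :=
  aeval (Sum.elim (fun i => Polynomial.C (xa i))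
    (fun i => Polynomial.C (ya i) + Polynomial.X * Polynomial.C (xa i)))

theorem sft_x (i : Fin 3) : sft (xa (k := k) i) = Polynomial.C (xa i) := by
  unfold sft xa
  rw [aeval_X]
  rfl

theorem sft_y (i : Fin 3) :
    sft (ya (k := k) i) = Polynomial.C (ya i) + Polynomial.X * Polynomial.C (xa i) := by
  unfold sft ya
  rw [aeval_X]
  rfl

theorem sft_der (p : A2 k) : Polynomial.derivative (sft p) = sft (dv p) := by
  induction p using MvPolynomial.induction_on with
  | C a =>
    have h1 : sft (C a : A2 k) = Polynomial.C (C a) := (sft (k := k)).commutes a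
    have h2 : dv (C a : A2 k) = 0 := (dv (k := k)).map_algebraMap a
    rw [h1, h2, Polynomial.derivative_C, map_zero]
  | add p q hp hq => rw [map_add, Polynomial.derivative_add, hp, hq, map_add, map_add]
  | mul_X p s hp =>
    rw [map_mul, Polynomial.derivative_mul, hp, Derivation.leibniz, map_add, smul_eq_mul,
      smul_eq_mul, map_mul, map_mul]
    rcases s with i | i
    · have h1 : dv (X (Sum.inl i) : A2 k) = 0 := by
        unfold dv
        rw [mkDerivation_X]
        rfl
      have h2 : sft (X (Sum.inl i) : A2 k) = Polynomial.C (xa i) := sft_x i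
      rw [h1, h2, Polynomial.derivative_C, map_zero]
      ring
    · have h1 : dv (X (Sum.inr i) : A2 k) = xa i := by
        unfold dv
        rw [mkDerivation_X]
        rfl
      have h2 : sft (X (Sum.inr i) : A2 k) = Polynomial.C (ya i) +
        Polynomial.X * Polynomial.C (xa i) := sft_y i
      rw [h1, h2, sft_x, Polynomial.derivative_add, Polynomial.derivative_mul,
        Polynomial.derivative_C, Polynomial.derivative_C, Polynomial.derivative_X]
      ring

/-- invariant polynomials are invariant under `y ↦ y + η x` -/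
theorem inv_shift [CharZero k] {L : Type} [CommRing L] [Algebra k L] {b : A2 k} (hb : dv b = 0)
    (x y : Fin 3 → L) (η : L) :
    aeval (Sum.elim x (fun i => y i + η * x i)) b = aeval (Sum.elim x y) b := by
  have h1 : Polynomial.derivative (sft b) = 0 := by rw [sft_der, hb, map_zero]
  have h2 := Polynomial.eq_C_of_derivative_eq_zero h1
  obtain ⟨e, he⟩ : ∃ e : Polynomial (A2 k) →+* L, e = Polynomial.eval₂RingHom (R := A2 k) (S := L)
    ((aeval (Sum.elim x y) : A2 k →ₐ[k] L) : A2 k →+* L) η := ⟨_, rfl⟩
  obtain ⟨e0, he0⟩ : ∃ e : Polynomial (A2 k) →+* A2 k, e = Polynomial.evalRingHom 0 := ⟨_, rfl⟩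
  have h3 : e0 (sft b) = b := by
    have h4 : e0.comp ((sft (k := k) : A2 k →ₐ[k] Polynomial (A2 k)) :
        A2 k →+* Polynomial (A2 k)) = RingHom.id (A2 k) := by
      apply MvPolynomial.ringHom_ext
      · intro a
        have h5 : sft (C a : A2 k) = Polynomial.C (C a) := (sft (k := k)).commutes a
        show e0 (sft (C a)) = C a
        rw [h5, he0, Polynomial.coe_evalRingHom, Polynomial.eval_C]
      · rintro (i | i)
        · show e0 (sft (xa i)) = xa i
          rw [sft_x, he0, Polynomial.coe_evalRingHom, Polynomial.eval_C]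
        · show e0 (sft (ya i)) = ya i
          rw [sft_y, he0, Polynomial.coe_evalRingHom, Polynomial.eval_add, Polynomial.eval_mul,
            Polynomial.eval_C, Polynomial.eval_X, zero_mul, add_zero]
    exact DFunLike.congr_fun h4 b
  have h6 : e (sft b) = aeval (Sum.elim x (fun i => y i + η * x i)) b := by
    have h4 : e.comp ((sft (k := k) : A2 k →ₐ[k] Polynomial (A2 k)) :
        A2 k →+* Polynomial (A2 k)) =
        ((aeval (Sum.elim x (fun i => y i + η * x i)) : A2 k →ₐ[k] L) : A2 k →+* L) := by
      have hCe : ∀ a : A2 k, e (Polynomial.C a) = aeval (Sum.elim x y) a := fun a => by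
        rw [he, Polynomial.coe_eval₂RingHom, Polynomial.eval₂_C]
        rfl
      have hXe : e Polynomial.X = η := by
        rw [he, Polynomial.coe_eval₂RingHom, Polynomial.eval₂_X]
      apply MvPolynomial.ringHom_ext
      · intro a
        have h5 : sft (C a : A2 k) = Polynomial.C (C a) := (sft (k := k)).commutes a
        show e (sft (C a)) = aeval (Sum.elim x (fun i => y i + η * x i)) (C a)
        rw [h5, hCe, aeval_C, aeval_C]
      · rintro (i | i)
        · show e (sft (xa i)) = aeval (Sum.elim x (fun i => y i + η * x i)) (X (Sum.inl i))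
          rw [sft_x, hCe, aeval_X]
          unfold xa
          rw [aeval_X]
          rfl
        · show e (sft (ya i)) = aeval (Sum.elim x (fun i => y i + η * x i)) (X (Sum.inr i))
          rw [sft_y, map_add, map_mul, hCe, hCe, hXe, aeval_X]
          unfold xa ya
          rw [aeval_X, aeval_X]
          rfl
    exact DFunLike.congr_fun h4 b
  have h7 : sft b = Polynomial.C b := by
    rw [h2] at h3
    rw [he0, Polynomial.coe_evalRingHom, Polynomial.eval_C] at h3
    rw [h2, h3]
  rw [← h6, h7, he, Polynomial.coe_eval₂RingHom, Polynomial.eval₂_C]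
  rfl

/-- scaling of `x` and `y` -/
theorem bh_scale {L : Type} [CommRing L] [Algebra k L] {e i : ℕ} {b : A2 k} (hb : BH e i b)
    (x y : Fin 3 → L) (c μ : L) :
    aeval (Sum.elim (fun j => c * x j) (fun j => μ * y j)) b =
      c ^ e * μ ^ i * aeval (Sum.elim x y) b := by
  have h1 := wh_aeval wx hb.1 (Sum.elim x (fun j => μ * y j)) c
  have h2 := wh_aeval wy hb.2 (Sum.elim x y) μ
  have h3 : (fun s => c ^ wx s * (Sum.elim x (fun j => μ * y j)) s) =
      Sum.elim (fun j => c * x j) (fun j => μ * y j) := by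
    funext s
    rcases s with j | j
    · show c ^ 1 * x j = c * x j
      rw [pow_one]
    · show c ^ 0 * (μ * y j) = μ * y j
      rw [pow_zero, one_mul]
  have h4 : (fun s => μ ^ wy s * (Sum.elim x y) s) =
      Sum.elim x (fun j => μ * y j) := by
    funext s
    rcases s with j | j
    · show μ ^ 0 * x j = x j
      rw [pow_zero, one_mul]
    · show μ ^ 1 * y j = μ * y j
      rw [pow_one]
  rw [h3] at h1
  rw [h4] at h2
  rw [h1, h2]
  ring

theorem hom_scale {L : Type} [CommRing L] [Algebra k L] {α : ℕ} {A : MvPolynomial (Fin 3) k}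
    (hA : A.IsHomogeneous α) (x : Fin 3 → L) (c : L) :
    aeval (fun i => c * x i) A = c ^ α * aeval x A := by
  have h1 := wh_aeval 1 hA x c
  have h3 : (fun s => c ^ (1 : Fin 3 → ℕ) s * x s) = fun i => c * x i := by
    funext s
    rw [Pi.one_apply, pow_one]
  rw [h3] at h1
  exact h1

end

theorem dt_eq {L : Type} [CommRing L] (a b c : Fin 3 → L) :
    dt a b c = a 0 * (b 1 * c 2 - b 2 * c 1) + a 1 * (b 2 * c 0 - b 0 * c 2) +
      a 2 * (b 0 * c 1 - b 1 * c 0) := by
  unfold dt dp cr
  rw [Fin.sum_univ_three]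
  rfl

/-- Row CRE. -/
theorem pf_CRE : T_CRE := by
  intro k L _ _ _ _ D α A b x c μ hA hb hdv
  have h1 : ∀ i, (μ • D) (c * x i) = c * μ * D (x i) + μ * D c * x i := by
    intro i
    rw [Derivation.smul_apply, Derivation.leibniz, smul_eq_mul, smul_eq_mul, smul_eq_mul]
    ring
  have h2 : ∀ i, (μ • D) ((μ • D) (c * x i)) = c * μ ^ 2 * D (D (x i)) +
      μ * (D (c * μ) + μ * D c) * D (x i) + μ * D (μ * D c) * x i := by
    intro i
    rw [h1, Derivation.smul_apply, map_add, Derivation.leibniz D (c * μ), Derivation.leibniz D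
      (μ * D c) (x i)]
    simp only [smul_eq_mul]
    ring
  have h3 : dt (fun i => c * x i) (fun i => (μ • D) (c * x i))
      (fun i => (μ • D) ((μ • D) (c * x i))) =
      c ^ 3 * μ ^ 3 * dt x (fun i => D (x i)) (fun i => D (D (x i))) := by
    have h2' : ∀ i, (μ • D) (c * μ * D (x i) + μ * D c * x i) = c * μ ^ 2 * D (D (x i)) +
        μ * (D (c * μ) + μ * D c) * D (x i) + μ * D (μ * D c) * x i := fun i => by
      rw [← h1, h2]
    simp only [h1, h2']
    obtain ⟨p, hp⟩ : ∃ p : L, p = μ * D c := ⟨_, rfl⟩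
    obtain ⟨q, hq⟩ : ∃ q : L, q = μ * (D (c * μ) + μ * D c) := ⟨_, rfl⟩
    obtain ⟨r, hr⟩ : ∃ r : L, r = μ * D (μ * D c) := ⟨_, rfl⟩
    rw [← hq, ← hr, ← hp, dt_eq, dt_eq]
    ring
  have h4 : aeval (Sum.elim (fun i => c * x i) fun i => (μ • D) (c * x i)) b =
      c ^ (α + 3) * μ ^ 3 * aeval (Sum.elim x fun i => D (x i)) b := by
    have h5 := inv_shift hdv x (fun i => c * μ * D (x i)) (μ * D c)
    have h6 := bh_scale hb x (fun i => c * μ * D (x i) + μ * D c * x i) c 1
    have h7 := bh_scale hb x (fun i => D (x i)) 1 (c * μ)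
    simp only [one_mul, one_pow] at h6 h7
    simp only [h1]
    rw [h6, mul_one, h5, h7]
    ring
  rw [h3, h4, hom_scale hA]
  ring

/-- Row AFE. -/
theorem pf_AFE : T_AFE := by
  intro k L _ _ _ _ D α A b u0 u1 u2 x c X Y hA hb hdv hc hX hDX hx
  have hx' : x = fun i => c * pa u0 u1 u2 X Y i := funext hx
  have h0 := pf_CRE k L D α A b (pa u0 u1 u2 X Y) c 1 hA hb hdv
  rw [one_smul, one_pow, mul_one] at h0
  rw [hx', h0]
  have hD : ∀ i, D (pa u0 u1 u2 X Y i) = X * (algebraMap k L (u1 i) +
      D Y / X * algebraMap k L (u2 i)) := by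
    intro i
    unfold pa
    rw [map_add, map_add, Derivation.leibniz, Derivation.leibniz, D.map_algebraMap,
      D.map_algebraMap, D.map_algebraMap, hDX]
    simp only [smul_eq_mul]
    field_simp
    ring
  have hDD : ∀ i, D (D (pa u0 u1 u2 X Y i)) = X * algebraMap k L (u1 i) +
      D (D Y) * algebraMap k L (u2 i) := by
    intro i
    have h1 : D (pa u0 u1 u2 X Y i) = X * algebraMap k L (u1 i) +
        D Y * algebraMap k L (u2 i) := by
      rw [hD]
      field_simp
    rw [h1, map_add, Derivation.leibniz, Derivation.leibniz, D.map_algebraMap,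
      D.map_algebraMap, hDX]
    simp only [smul_eq_mul]
    ring
  have h1 : dt (pa u0 u1 u2 X Y) (fun i => D (pa u0 u1 u2 X Y i))
      (fun i => D (D (pa u0 u1 u2 X Y i))) =
      X ^ 3 * (algebraMap k L (dt u0 u1 u2) * ((D (D Y) - D Y) / X ^ 2)) := by
    have hDD' : ∀ i, D (X * (algebraMap k L (u1 i) + D Y / X * algebraMap k L (u2 i))) =
        X * algebraMap k L (u1 i) + D (D Y) * algebraMap k L (u2 i) := fun i => by
      rw [← hD, hDD]
    simp only [hD, hDD']
    rw [dt_eq, dt_eq]
    unfold pa
    simp only [map_add, map_mul, map_sub]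
    field_simp
    ring
  have h2 : aeval ![X, Y] (aU A u0 u1 u2) =
      algebraMap k L (dt u0 u1 u2) * aeval (pa u0 u1 u2 X Y) A := by
    unfold aU gU
    rw [map_mul, aeval_C]
    congr 1
    have h3 : (aeval ![X, Y] : MvPolynomial (Fin 2) k →ₐ[k] L).comp
        (aeval (pa u0 u1 u2 (MvPolynomial.X 0) (MvPolynomial.X 1))) =
        aeval (pa u0 u1 u2 X Y) := by
      apply MvPolynomial.algHom_ext
      intro i
      rw [AlgHom.comp_apply, aeval_X, aeval_X]
      unfold pa
      rw [map_add, map_add, map_mul, map_mul, aeval_X, aeval_X, AlgHom.commutes, AlgHom.commutes,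
        AlgHom.commutes]
      rfl
    exact DFunLike.congr_fun h3 A
  have h4 : aeval (Sum.elim (pa u0 u1 u2 X Y) fun i => D (pa u0 u1 u2 X Y i)) b =
      X ^ 3 * aeval ![X, Y, D Y / X] (bU b u0 u1 u2) := by
    have h5 := bh_scale hb (pa u0 u1 u2 X Y) (fun i => algebraMap k L (u1 i) +
      D Y / X * algebraMap k L (u2 i)) 1 X
    simp only [one_mul, one_pow] at h5
    simp only [hD]
    rw [h5]
    congr 1
    unfold bU
    have h3 : (aeval ![X, Y, D Y / X] : MvPolynomial (Fin 3) k →ₐ[k] L).comp
        (aeval (Sum.elim (pa u0 u1 u2 (MvPolynomial.X 0) (MvPolynomial.X 1) :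
          Fin 3 → MvPolynomial (Fin 3) k)
          (fun i => C (u1 i) + C (u2 i) * MvPolynomial.X 2))) =
        aeval (Sum.elim (pa u0 u1 u2 X Y) (fun i => algebraMap k L (u1 i) +
          D Y / X * algebraMap k L (u2 i))) := by
      apply MvPolynomial.algHom_ext
      rintro (i | i)
      · rw [AlgHom.comp_apply, aeval_X, aeval_X]
        show aeval ![X, Y, D Y / X] (pa u0 u1 u2 (MvPolynomial.X 0) (MvPolynomial.X 1) i) =
          pa u0 u1 u2 X Y i
        unfold pa
        rw [map_add, map_add, map_mul, map_mul, aeval_X, aeval_X, AlgHom.commutes,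
          AlgHom.commutes, AlgHom.commutes]
        rfl
      · rw [AlgHom.comp_apply, aeval_X, aeval_X]
        show aeval ![X, Y, D Y / X] (C (u1 i) + C (u2 i) * MvPolynomial.X 2) =
          algebraMap k L (u1 i) + D Y / X * algebraMap k L (u2 i)
        rw [map_add, map_mul, aeval_X, aeval_C, aeval_C, mul_comm]
        rfl
    exact (DFunLike.congr_fun h3 b).symm
  rw [h1, h2, h4]
  ring

end Pool.Agent.H55.SM
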