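import Pool.Agent.H55.SM.Sc

/-!
# MP_70ba79_ag, board smc_modules, row FIJ: a section which vanishes on the curve is divisible by
`G`
-/

set_option autoImplicit false

namespace Pool.Agent.H55.SM

open MvPolynomial SC Pool.Agent.H27.LV Pool.Agent.H84.SM

section

variable {k : Type} [Field k] {L : Type} [Field L] [Algebra k L]

/-- value at a point of the chart -/
noncomputable def ew (c : Fin 3 → L) (v : Fin 2 → L) (z : L) : P2 k →+* L :=
  Polynomial.eval₂RingHom (R := B2 k) (S := L)
    ((aeval (Sum.elim c v) : B2 k →ₐ[k] L) : B2 k →+* L) z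

theorem ew_C (c : Fin 3 → L) (v : Fin 2 → L) (z : L) (a : B2 k) :
    ew c v z (Polynomial.C a) = aeval (Sum.elim c v) a := by
  unfold ew
  rw [Polynomial.coe_eval₂RingHom, Polynomial.eval₂_C]
  rfl

theorem ew_X (c : Fin 3 → L) (v : Fin 2 → L) (z : L) :
    ew c v z (Polynomial.X : P2 k) = z := by
  unfold ew
  rw [Polynomial.coe_eval₂RingHom, Polynomial.eval₂_X]

/-- value at a point of the chart, with a parameter -/
noncomputable def ep (c : Fin 3 → L) (v : Fin 2 → L) (a z : L) :
    Polynomial (Polynomial (B2 k)) →+* L :=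
  Polynomial.eval₂RingHom (R := Polynomial (B2 k)) (S := L)
    (Polynomial.eval₂RingHom (R := B2 k) (S := L)
      ((aeval (Sum.elim c v) : B2 k →ₐ[k] L) : B2 k →+* L) a) z

theorem ep_CC (c : Fin 3 → L) (v : Fin 2 → L) (a z : L) (b : B2 k) :
    ep c v a z (Polynomial.C (Polynomial.C b)) = aeval (Sum.elim c v) b := by
  unfold ep
  rw [Polynomial.coe_eval₂RingHom, Polynomial.eval₂_C, Polynomial.coe_eval₂RingHom,
    Polynomial.eval₂_C]
  rfl

theorem ep_CX (c : Fin 3 → L) (v : Fin 2 → L) (a z : L) :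
    ep c v a z (Polynomial.C Polynomial.X : Polynomial (Polynomial (B2 k))) = a := by
  unfold ep
  rw [Polynomial.coe_eval₂RingHom, Polynomial.eval₂_C, Polynomial.coe_eval₂RingHom,
    Polynomial.eval₂_X]

theorem ep_X (c : Fin 3 → L) (v : Fin 2 → L) (a z : L) :
    ep c v a z (Polynomial.X : Polynomial (Polynomial (B2 k))) = z := by
  unfold ep
  rw [Polynomial.coe_eval₂RingHom, Polynomial.eval₂_X]

theorem hom_ext {R : Type} [CommRing R] {f g : P2 k →+* R}
    (h0 : ∀ a : k, f (Polynomial.C (C a)) = g (Polynomial.C (C a)))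
    (h1 : ∀ i, f (Polynomial.C (xb i)) = g (Polynomial.C (xb i)))
    (h2 : ∀ i, f (Polynomial.C (qb i)) = g (Polynomial.C (qb i)))
    (h3 : f Polynomial.X = g Polynomial.X) : f = g := by
  apply Polynomial.ringHom_ext'
  · apply MvPolynomial.ringHom_ext
    · exact h0
    · rintro (i | i)
      · exact h1 i
      · exact h2 i
  · exact h3

theorem ep_io (c : Fin 3 → L) (v : Fin 2 → L) (a z : L) (p : P2 k) :
    ep c v a z (io p) = ew c v z p := by
  have h1 : (ep (k := k) c v a z).comp io = ew c v z := by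
    apply hom_ext
    · intro b
      rw [RingHom.comp_apply, io_C, ep_CC, ew_C]
    · intro i
      rw [RingHom.comp_apply, io_C, ep_CC, ew_C]
    · intro i
      rw [RingHom.comp_apply, io_C, ep_CC, ew_C]
    · rw [RingHom.comp_apply, io_X, ep_X, ew_X]
  exact DFunLike.congr_fun h1 p

theorem ep_sz (c : Fin 3 → L) (v : Fin 2 → L) (a z : L) (p : P2 k) :
    ep c v a z (sz p) = ew c (fun i => a * v i) (a ^ 3 * z) p := by
  have h1 : (ep (k := k) c v a z).comp sz = ew c (fun i => a * v i) (a ^ 3 * z) := by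
    apply hom_ext
    · intro b
      have h2 : sq (C b : B2 k) = Polynomial.C (C b) := (sq (k := k)).commutes b
      rw [RingHom.comp_apply, sz_C, h2, ep_CC, ew_C, aeval_C, aeval_C]
    · intro i
      rw [RingHom.comp_apply, sz_C, sq_xb, ep_CC, ew_C]
      unfold xb
      rw [aeval_X, aeval_X]
      rfl
    · intro i
      rw [RingHom.comp_apply, sz_C, sq_qb, map_mul Polynomial.C, map_mul (ep c v a z), ep_CC,
        ep_CX, ew_C]
      unfold qb
      rw [aeval_X, aeval_X]
      exact mul_comm _ _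
    · rw [RingHom.comp_apply, sz_X, map_mul, map_pow, map_pow, ep_CX, ep_X, ew_X]
  exact DFunLike.congr_fun h1 p

/-- homogeneity of the values -/
theorem ew_scale {G : MvPolynomial (Fin 3) k} {d : ℕ} (hG : G ≠ 0) {e n M : ℕ} {N : R2 k}
    (hN : BHN e n N) {l : Fin 3} {N1 : P2 k} (h : gp G ^ M * N1 = Psi G d l N)
    (c : Fin 3 → L) (v : Fin 2 → L) (a z : L) :
    ew c (fun i => a * v i) (a ^ 3 * z) N1 = a ^ n * ew c v z N1 := by
  rw [← ep_sz, sz_N1 G d hG hN h, map_mul, map_pow, map_pow, ep_CX, ep_io]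

/-- polynomials in `q` with coefficients in the polynomials in `x` -/
noncomputable def eqv : B2 k ≃ₐ[k] MvPolynomial (Fin 2) (MvPolynomial (Fin 3) k) :=
  (renameEquiv k (Equiv.sumComm (Fin 3) (Fin 2))).trans (sumAlgEquiv k (Fin 2) (Fin 3))

theorem eqv_x (P : MvPolynomial (Fin 3) k) : eqv (aeval (xb (k := k)) P) = C P := by
  have h1 : (eqv (k := k) : B2 k →ₐ[k] MvPolynomial (Fin 2) (MvPolynomial (Fin 3) k)).comp
      (aeval (xb (k := k))) =
      IsScalarTower.toAlgHom k (MvPolynomial (Fin 3) k)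
        (MvPolynomial (Fin 2) (MvPolynomial (Fin 3) k)) := by
    apply MvPolynomial.algHom_ext
    intro i
    rw [AlgHom.comp_apply, aeval_X]
    show sumAlgEquiv k (Fin 2) (Fin 3) (rename _ (X (Sum.inl i))) = C (X i)
    rw [rename_X]
    exact sumAlgEquiv_X_inr k (Fin 2) (Fin 3) i
  exact DFunLike.congr_fun h1 P

theorem eqv_val (c : Fin 3 → L) (v : Fin 2 → L) (p : B2 k) :
    eval v (map ((aeval c : MvPolynomial (Fin 3) k →ₐ[k] L) : MvPolynomial (Fin 3) k →+* L)
      (eqv p)) = aeval (Sum.elim c v) p := by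
  have h1 : (((eval v).comp (map ((aeval c : MvPolynomial (Fin 3) k →ₐ[k] L) :
      MvPolynomial (Fin 3) k →+* L))).comp
      ((eqv (k := k) : B2 k →ₐ[k] MvPolynomial (Fin 2) (MvPolynomial (Fin 3) k)) :
        B2 k →+* MvPolynomial (Fin 2) (MvPolynomial (Fin 3) k))) =
      ((aeval (Sum.elim c v) : B2 k →ₐ[k] L) : B2 k →+* L) := by
    apply MvPolynomial.ringHom_ext
    · intro a
      show eval v (map _ (eqv (C a))) = aeval (Sum.elim c v) (C a)
      have h2 : eqv (C a : B2 k) = C (C a) := (eqv (k := k)).commutes a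
      rw [h2, map_C, eval_C, aeval_C]
      exact aeval_C _ _
    · rintro (i | i)
      · show eval v (map _ (eqv (xb i))) = aeval (Sum.elim c v) (X (Sum.inl i))
        have h2 : eqv (xb (k := k) i) = C (X i) := by
          have h3 := eqv_x (k := k) (X i)
          rwa [aeval_X] at h3
        rw [h2, map_C, eval_C, aeval_X]
        exact aeval_X _ _
      · show eval v (map _ (eqv (X (Sum.inr i)))) = aeval (Sum.elim c v) (X (Sum.inr i))
        have h2 : eqv (X (Sum.inr i) : B2 k) = X i := by
          show sumAlgEquiv k (Fin 2) (Fin 3) (rename _ (X (Sum.inr i))) = X i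
          rw [rename_X]
          exact sumAlgEquiv_X_inl k (Fin 2) (Fin 3) i
        rw [h2, map_X, eval_X, aeval_X]
        rfl
  exact DFunLike.congr_fun h1 p

/-- a polynomial which vanishes at all points over the generic point of the curve where a linear
form does not vanish is divisible by `G` -/
theorem dvd_of_val [Infinite L] {G : MvPolynomial (Fin 3) k} {c : Fin 3 → L} (hc : GenPt G c)
    (p : P2 k) (w : Fin 2 → L) (hw : w ≠ 0)
    (h : ∀ (v : Fin 2 → L) (z : L), v 0 * w 1 - v 1 * w 0 ≠ 0 → ew c v z p = 0) :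
    gp G ∣ p := by
  have h1 : ∀ (v : Fin 2 → L) (j : ℕ), v 0 * w 1 - v 1 * w 0 ≠ 0 →
      aeval (Sum.elim c v) (p.coeff j) = 0 := by
    intro v j hv
    have h2 : p.map ((aeval (Sum.elim c v) : B2 k →ₐ[k] L) : B2 k →+* L) = 0 := by
      apply Polynomial.funext
      intro z
      rw [Polynomial.eval_zero, Polynomial.eval_map]
      exact h v z hv
    have h3 := congrArg (fun q => q.coeff j) h2
    beta_reduce at h3
    rw [Polynomial.coeff_map, Polynomial.coeff_zero] at h3
    exact h3
  unfold gp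
  rw [Polynomial.C_dvd_iff_dvd_coeff]
  intro j
  have h4 : map ((aeval c : MvPolynomial (Fin 3) k →ₐ[k] L) : MvPolynomial (Fin 3) k →+* L)
      (eqv (p.coeff j)) = 0 := by
    have h5 : (X 0 * C (w 1) - X 1 * C (w 0) : MvPolynomial (Fin 2) L) *
        map ((aeval c : MvPolynomial (Fin 3) k →ₐ[k] L) : MvPolynomial (Fin 3) k →+* L)
          (eqv (p.coeff j)) = 0 := by
      apply MvPolynomial.funext
      intro v
      rw [map_mul, map_sub, map_mul, map_mul, eval_X, eval_X, eval_C, eval_C, eqv_val, map_zero]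
      by_cases hv : v 0 * w 1 - v 1 * w 0 = 0
      · rw [hv, zero_mul]
      · rw [h1 v j hv, mul_zero]
    rcases mul_eq_zero.1 h5 with h6 | h6
    · exfalso
      apply hw
      have h7 := congrArg (eval ![1, 0]) h6
      have h8 := congrArg (eval ![0, 1]) h6
      simp only [map_sub, map_mul, eval_X, eval_C, map_zero] at h7 h8
      funext i
      fin_cases i
      · simpa using h8
      · simpa using h7
    · exact h6
  have h9 : C G ∣ eqv (p.coeff j) := by
    rw [C_dvd_iff_dvd_coeff]
    intro B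
    rw [← hc]
    have h10 := congrArg (coeff B) h4
    rw [coeff_map, coeff_zero] at h10
    exact h10
  rw [← eqv_x] at h9
  obtain ⟨q, hq⟩ := h9
  refine ⟨eqv.symm q, ?_⟩
  apply eqv.injective
  rw [hq, map_mul, AlgEquiv.apply_symm_apply]

end

/-- Row FIJ. -/
theorem pf_FIJ (hGPR : T_GPR) : T_FIJ := by
  intro k L _ _ _ _ _ G d c τ m hd hG hirr hc hfr e n M N hN l N1 h h0
  have hG0 : G ≠ 0 := hirr.ne_zero
  have hcz : CharZero L := charZero_of_injective_algebraMap (algebraMap k L).injective
  have hinf : Infinite L := inferInstance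
  have hgl : gr G c l ≠ 0 := by
    intro h1
    exact ((hGPR k G d hd hG hirr).2.2.2.2 l).2.1 ((hc (pderiv l G)).1 h1)
  have hdet : c (l + 1) * τ (l + 2) - c (l + 2) * τ (l + 1) = gr G c l := hfr.1 l
  have hw : (![τ (l + 1), τ (l + 2)] : Fin 2 → L) ≠ 0 := by
    intro h1
    apply hgl
    have h2 := congrFun h1 0
    have h3 := congrFun h1 1
    have h4 : τ (l + 1) = 0 := h2
    have h5 : τ (l + 2) = 0 := h3
    rw [← hdet, h4, h5]
    ring
  -- values at the points of the frame
  have key : ∀ a z : L, ew c (fun i => (gr G c l)⁻¹ *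
      (![c (l + 1) + a * τ (l + 1), c (l + 2) + a * τ (l + 2)] : Fin 2 → L) i) z N1 = 0 := by
    intro a z
    obtain ⟨y, hy⟩ : ∃ y : L, y = a ^ 2 * hs G c τ * (cr c m l + a * cr τ m l) := ⟨_, rfl⟩
    have h1 : (Polynomial.eval₂RingHom (R := Polynomial L) (S := L)
        (Polynomial.evalRingHom a) (z + (gr G c l)⁻¹ * y)).comp (fe G l c τ m) =
        ew c (fun i => (gr G c l)⁻¹ *
          (![c (l + 1) + a * τ (l + 1), c (l + 2) + a * τ (l + 2)] : Fin 2 → L) i) z := by
      have hCC : ∀ b : L, Polynomial.eval₂RingHom (R := Polynomial L) (S := L)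
          (Polynomial.evalRingHom a) (z + (gr G c l)⁻¹ * y) (Polynomial.C (Polynomial.C b)) =
          b := by
        intro b
        rw [Polynomial.coe_eval₂RingHom, Polynomial.eval₂_C, Polynomial.coe_evalRingHom,
          Polynomial.eval_C]
      have hCX : Polynomial.eval₂RingHom (R := Polynomial L) (S := L)
          (Polynomial.evalRingHom a) (z + (gr G c l)⁻¹ * y) (Polynomial.C Polynomial.X) =
          a := by
        rw [Polynomial.coe_eval₂RingHom, Polynomial.eval₂_C, Polynomial.coe_evalRingHom,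
          Polynomial.eval_X]
      have hX : Polynomial.eval₂RingHom (R := Polynomial L) (S := L)
          (Polynomial.evalRingHom a) (z + (gr G c l)⁻¹ * y) Polynomial.X =
          z + (gr G c l)⁻¹ * y := by
        rw [Polynomial.coe_eval₂RingHom, Polynomial.eval₂_X]
      have hfC : ∀ b : B2 k, fe G l c τ m (Polynomial.C b) = aeval (Sum.elim (li c)
          ![Polynomial.C (Polynomial.C (gr G c l)⁻¹) * fq c τ (l + 1),
            Polynomial.C (Polynomial.C (gr G c l)⁻¹) * fq c τ (l + 2)]) b := by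
        intro b
        unfold fe evl
        rw [Polynomial.coe_eval₂RingHom, Polynomial.eval₂_C]
        rfl
      have hfX : fe G l c τ m Polynomial.X =
          Polynomial.C (Polynomial.C (gr G c l)⁻¹) * fs3 G c τ m l := by
        unfold fe evl
        rw [Polynomial.coe_eval₂RingHom, Polynomial.eval₂_X]
      have hq : ∀ i, Polynomial.eval₂RingHom (R := Polynomial L) (S := L)
          (Polynomial.evalRingHom a) (z + (gr G c l)⁻¹ * y) (fq c τ i) = c i + a * τ i := by
        intro i
        unfold fq li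
        rw [map_add, map_mul, hCC, hCC, hCX]
      apply hom_ext
      · intro b
        rw [RingHom.comp_apply, ew_C, aeval_C, hfC, aeval_C]
        exact hCC _
      · intro i
        rw [RingHom.comp_apply, ew_C, hfC]
        unfold xb
        rw [aeval_X, aeval_X]
        exact hCC _
      · intro i
        rw [RingHom.comp_apply, ew_C, hfC]
        unfold qb
        rw [aeval_X, aeval_X]
        fin_cases i
        · show Polynomial.eval₂RingHom (R := Polynomial L) (S := L)
            (Polynomial.evalRingHom a) (z + (gr G c l)⁻¹ * y)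
            (Polynomial.C (Polynomial.C (gr G c l)⁻¹) * fq c τ (l + 1)) =
            (gr G c l)⁻¹ * (c (l + 1) + a * τ (l + 1))
          rw [map_mul, hCC, hq]
        · show Polynomial.eval₂RingHom (R := Polynomial L) (S := L)
            (Polynomial.evalRingHom a) (z + (gr G c l)⁻¹ * y)
            (Polynomial.C (Polynomial.C (gr G c l)⁻¹) * fq c τ (l + 2)) =
            (gr G c l)⁻¹ * (c (l + 2) + a * τ (l + 2))
          rw [map_mul, hCC, hq]
      · rw [RingHom.comp_apply, ew_X, hfX]
        unfold fs3 li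
        rw [map_mul, map_sub, map_mul, map_mul, map_mul, map_add, map_mul, map_pow, hCC, hCC,
          hCC, hCC, hCC, hCX, hX, ← hy]
        field_simp
        ring
    have h2 := DFunLike.congr_fun h1 N1
    rw [RingHom.comp_apply, h0, map_zero] at h2
    exact h2.symm
  refine dvd_of_val hc N1 _ hw fun v z hv => ?_
  have hv' : v 0 * τ (l + 2) - v 1 * τ (l + 1) ≠ 0 := hv
  obtain ⟨u, hu⟩ : ∃ u : L, u = v 0 * τ (l + 2) - v 1 * τ (l + 1) := ⟨_, rfl⟩
  rw [← hu] at hv'
  have h1 := ew_scale (d := d) hG0 hN h c (fun i => (gr G c l)⁻¹ *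
    (![c (l + 1) + (c (l + 1) * v 1 - c (l + 2) * v 0) / u * τ (l + 1),
      c (l + 2) + (c (l + 1) * v 1 - c (l + 2) * v 0) / u * τ (l + 2)] : Fin 2 → L) i)
    u (z / u ^ 3)
  rw [key, mul_zero] at h1
  have h2 : u ^ 3 * (z / u ^ 3) = z := by field_simp
  have h3 : (fun i => u * ((gr G c l)⁻¹ *
    (![c (l + 1) + (c (l + 1) * v 1 - c (l + 2) * v 0) / u * τ (l + 1),
      c (l + 2) + (c (l + 1) * v 1 - c (l + 2) * v 0) / u * τ (l + 2)] : Fin 2 → L) i)) = v := by
    funext i
    fin_cases i
    · show u * ((gr G c l)⁻¹ * (c (l + 1) + (c (l + 1) * v 1 - c (l + 2) * v 0) / u *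
        τ (l + 1))) = v 0
      have h4 : u * ((gr G c l)⁻¹ * (c (l + 1) + (c (l + 1) * v 1 - c (l + 2) * v 0) / u *
        τ (l + 1))) = (gr G c l)⁻¹ * (u * c (l + 1) + (c (l + 1) * v 1 - c (l + 2) * v 0) *
        τ (l + 1)) := by field_simp
      rw [h4, hu]
      have h5 : (v 0 * τ (l + 2) - v 1 * τ (l + 1)) * c (l + 1) +
          (c (l + 1) * v 1 - c (l + 2) * v 0) * τ (l + 1) = gr G c l * v 0 := by
        rw [← hdet]; ring
      rw [h5, inv_mul_cancel_left₀ hgl]
    · show u * ((gr G c l)⁻¹ * (c (l + 2) + (c (l + 1) * v 1 - c (l + 2) * v 0) / u *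
        τ (l + 2))) = v 1
      have h4 : u * ((gr G c l)⁻¹ * (c (l + 2) + (c (l + 1) * v 1 - c (l + 2) * v 0) / u *
        τ (l + 2))) = (gr G c l)⁻¹ * (u * c (l + 2) + (c (l + 1) * v 1 - c (l + 2) * v 0) *
        τ (l + 2)) := by field_simp
      rw [h4, hu]
      have h5 : (v 0 * τ (l + 2) - v 1 * τ (l + 1)) * c (l + 2) +
          (c (l + 1) * v 1 - c (l + 2) * v 0) * τ (l + 2) = gr G c l * v 1 := by
        rw [← hdet]; ring
      rw [h5, inv_mul_cancel_left₀ hgl]
  rw [h2, h3] at h1
  exact h1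

end Pool.Agent.H55.SM
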