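import Pool.Agent.H55.SM.Sc

/-!
# MP_70ba79_ag, board smc_modules, row FWT: the coefficients of a section on the curve vanish for
`n < b + 3 j`
-/

set_option autoImplicit false

namespace Pool.Agent.H55.SM

open MvPolynomial SC Pool.Agent.H27.LV Pool.Agent.H84.SM

section

variable {L : Type} [Field L]

/-- `p` has weight at most `D` if `γ` has weight 1 and `σ` has weight 3 -/
def Fil (D : ℕ) (p : Polynomial (Polynomial L)) : Prop :=
  ∀ j b, D < b + 3 * j → (p.coeff j).coeff b = 0

theorem Fil.mono {D E : ℕ} {p : Polynomial (Polynomial L)} (h : Fil D p) (hDE : D ≤ E) :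
    Fil E p := fun j b hb => h j b (lt_of_le_of_lt hDE hb)

theorem Fil.zero (D : ℕ) : Fil D (0 : Polynomial (Polynomial L)) := fun j b _ => by
  rw [Polynomial.coeff_zero, Polynomial.coeff_zero]

theorem Fil.add {D : ℕ} {p q : Polynomial (Polynomial L)} (hp : Fil D p) (hq : Fil D q) :
    Fil D (p + q) := fun j b hb => by
  rw [Polynomial.coeff_add, Polynomial.coeff_add, hp j b hb, hq j b hb, add_zero]

theorem Fil.neg {D : ℕ} {p : Polynomial (Polynomial L)} (hp : Fil D p) :
    Fil D (-p) := fun j b hb => by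
  rw [Polynomial.coeff_neg, Polynomial.coeff_neg, hp j b hb, neg_zero]

theorem Fil.sub {D : ℕ} {p q : Polynomial (Polynomial L)} (hp : Fil D p) (hq : Fil D q) :
    Fil D (p - q) := by
  rw [sub_eq_add_neg]
  exact hp.add hq.neg

theorem Fil.mul {D E : ℕ} {p q : Polynomial (Polynomial L)} (hp : Fil D p) (hq : Fil E q) :
    Fil (D + E) (p * q) := by
  intro j b hb
  rw [Polynomial.coeff_mul, Polynomial.finsetSum_coeff]
  refine Finset.sum_eq_zero fun x hx => ?_
  rw [Polynomial.coeff_mul]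
  refine Finset.sum_eq_zero fun y hy => ?_
  have hx := Finset.HasAntidiagonal.mem_antidiagonal.1 hx
  have hy := Finset.HasAntidiagonal.mem_antidiagonal.1 hy
  by_cases h1 : D < y.1 + 3 * x.1
  · rw [hp _ _ h1, zero_mul]
  · have h2 : E < y.2 + 3 * x.2 := by omega
    rw [hq _ _ h2, mul_zero]

theorem Fil.C (a : L) : Fil 0 (Polynomial.C (Polynomial.C a) : Polynomial (Polynomial L)) := by
  intro j b hb
  rw [Polynomial.coeff_C]
  split_ifs with h
  · rw [Polynomial.coeff_C, if_neg (by omega)]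
  · rw [Polynomial.coeff_zero]

theorem Fil.γ : Fil 1 (Polynomial.C Polynomial.X : Polynomial (Polynomial L)) := by
  intro j b hb
  rw [Polynomial.coeff_C]
  split_ifs with h
  · rw [Polynomial.coeff_X, if_neg (by omega)]
  · rw [Polynomial.coeff_zero]

theorem Fil.σ : Fil 3 (Polynomial.X : Polynomial (Polynomial L)) := by
  intro j b hb
  rw [Polynomial.coeff_X]
  split_ifs with h
  · rw [Polynomial.coeff_one, if_neg (by omega)]
  · rw [Polynomial.coeff_zero]

theorem Fil.pow {D : ℕ} {p : Polynomial (Polynomial L)} (hp : Fil D p) (m : ℕ) :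
    Fil (m * D) (p ^ m) := by
  induction m with
  | zero =>
    rw [pow_zero, zero_mul]
    have h1 := Fil.C (1 : L)
    rwa [map_one, map_one] at h1
  | succ m ih =>
    rw [pow_succ, Nat.succ_mul]
    exact ih.mul hp

theorem Fil.sum {ι : Type} (s : Finset ι) {D : ℕ} {p : ι → Polynomial (Polynomial L)}
    (hp : ∀ i ∈ s, Fil D (p i)) : Fil D (∑ i ∈ s, p i) := by
  classical
  induction s using Finset.induction_on with
  | empty => rw [Finset.sum_empty]; exact Fil.zero D
  | insert a s ha ih =>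
    rw [Finset.sum_insert ha]
    exact (hp a (Finset.mem_insert_self a s)).add
      (ih fun i hi => hp i (Finset.mem_insert_of_mem hi))

/-- values of monomials -/
theorem Fil.mon {k : Type} [Field k] [Algebra k L]
    {v : Fin 3 ⊕ Fin 2 → Polynomial (Polynomial L)}
    (h0 : ∀ i, Fil 0 (v (Sum.inl i))) (h1 : ∀ i, Fil 1 (v (Sum.inr i)))
    {z : Polynomial (Polynomial L)} (hz : Fil 3 z) {n : ℕ} {p : P2 k}
    (hp : ∀ j m, coeff m (p.coeff j) ≠ 0 → qd m + 3 * j = n) :
    Fil n (Polynomial.eval₂RingHom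
      ((aeval v : B2 k →ₐ[k] Polynomial (Polynomial L)) : B2 k →+* Polynomial (Polynomial L))
      z p) := by
  rw [Polynomial.coe_eval₂RingHom, Polynomial.eval₂_eq_sum_range]
  refine Fil.sum _ fun j _ => ?_
  have h2 : ((aeval v : B2 k →ₐ[k] Polynomial (Polynomial L)) : B2 k →+* Polynomial (Polynomial L))
      (p.coeff j) = ∑ m ∈ (p.coeff j).support,
        algebraMap k (Polynomial (Polynomial L)) (coeff m (p.coeff j)) *
          ∏ s, v s ^ m s := by
    rw [RingHom.coe_coe, aeval_def, eval₂_eq']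
  rw [h2, Finset.sum_mul]
  refine Fil.sum _ fun m hm => ?_
  have h3 := hp j m (mem_support_iff.1 hm)
  rw [Fintype.prod_sum_type, Fin.prod_univ_three, Fin.prod_univ_two]
  have h4 : Fil 0 (algebraMap k (Polynomial (Polynomial L)) (coeff m (p.coeff j))) := by
    have h5 : algebraMap k (Polynomial (Polynomial L)) (coeff m (p.coeff j)) =
      Polynomial.C (Polynomial.C (algebraMap k L (coeff m (p.coeff j)))) := rfl
    rw [h5]
    exact Fil.C _
  have h6 : ∀ i, Fil 0 (v (Sum.inl i) ^ m (Sum.inl i)) := fun i => by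
    have h7 := (h0 i).pow (m (Sum.inl i))
    rwa [mul_zero] at h7
  have h8 : ∀ i, Fil (m (Sum.inr i)) (v (Sum.inr i) ^ m (Sum.inr i)) := fun i => by
    have h7 := (h1 i).pow (m (Sum.inr i))
    rwa [mul_one] at h7
  refine ((h4.mul (((h6 0).mul (h6 1)).mul (h6 2) |>.mul ((h8 0).mul (h8 1)))).mul
    (hz.pow j)).mono ?_
  unfold qd at h3
  omega

end

/-- Row FWT. -/
theorem pf_FWT : T_FWT := by
  intro k L _ _ _ _ _ G d c τ m hd hG hirr hc hfr e n M N hN l N1 h j b hb
  have hG0 : G ≠ 0 := hirr.ne_zero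
  have h1 := wh_N1 G d hG0 hN h
  have hli : ∀ (x : Fin 3 → L) (i : Fin 3), Fil 0 (li x i) := fun x i => Fil.C _
  have hfq : ∀ i, Fil 1 (fq c τ i) := fun i =>
    ((hli c i).mono zero_le_one).add (Fil.γ.mul (hli τ i))
  have hg : Fil 0 (Polynomial.C (Polynomial.C (gr G c l)⁻¹) : Polynomial (Polynomial L)) :=
    Fil.C _
  refine Fil.mon (v := Sum.elim (li c) ![Polynomial.C (Polynomial.C (gr G c l)⁻¹) *
    fq c τ (l + 1), Polynomial.C (Polynomial.C (gr G c l)⁻¹) * fq c τ (l + 2)])
    (z := Polynomial.C (Polynomial.C (gr G c l)⁻¹) * fs3 G c τ m l)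
    (fun i => hli c i) (fun i => ?_) ?_ h1 j b hb
  · fin_cases i
    · have h2 := hg.mul (hfq (l + 1))
      rwa [zero_add] at h2
    · have h2 := hg.mul (hfq (l + 2))
      rwa [zero_add] at h2
  · have h2 : Fil 3 (fs3 G c τ m l) := by
      unfold fs3
      refine (Fil.σ.mul (hli _ l)).sub ?_
      exact (((Fil.γ.pow 2).mul (Fil.C _)).mul (((hli _ l).mono zero_le_one).add
        (Fil.γ.mul (hli _ l))))
    have h3 := hg.mul h2
    rwa [zero_add] at h3

end Pool.Agent.H55.SM
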