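import Pool.Agent.H20.SM.Targets
import Pool.Agent.H96.CV.Basic

/-! RS (first part): the primes of `m` do not matter; the proof with the old facts as hypotheses. -/

set_option autoImplicit false

open NumberField NumberField.InfinitePlace Complex Filter Topology MeasureTheory

namespace Pool.Agent.H55.SM

open Pool.Agent.H20.SM Pool.Agent.H37.CV Pool.Agent.H28.RC Pool.Agent.H25.HK Pool.Agent.H96.CV

/-! ### The combinatorial part -/

open scoped Classical in
theorem RS_nS_erase {α : Type} (N : α → ℝ) {S : Finset α} {P : α} (h : P ∈ S) :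
    nS N S = N P * nS N (S.erase P) := by
  unfold nS
  exact (Finset.mul_prod_erase S N h).symm

open scoped Classical in
theorem RS_inter {α : Type} {R S : Finset α} {P : α} (h : P ∉ R) :
    (S.erase P) ∩ R = S ∩ R := by
  ext x
  simp only [Finset.mem_inter, Finset.mem_erase]
  constructor
  · rintro ⟨⟨-, h1⟩, h2⟩
    exact ⟨h1, h2⟩
  · rintro ⟨h1, h2⟩
    exact ⟨⟨fun h3 => h (h3 ▸ h2), h1⟩, h2⟩

open scoped Classical in
theorem RS_gg_erase {α : Type} (N : α → ℝ) (hN : ∀ P, 2 ≤ N P) {R₁ R₂ S T : Finset α} {P : α}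
    (h1 : P ∉ R₁) (h2 : P ∉ R₂) (h : P ∈ S ∨ P ∈ T) :
    gg N R₁ R₂ S T / (nS N S * nS N T) =
      gg N R₁ R₂ (S.erase P) (T.erase P) / (nS N (S.erase P) * nS N (T.erase P)) * (N P)⁻¹ := by
  have hP : N P ≠ 0 := by linarith [hN P]
  have pos : ∀ U : Finset α, nS N U ≠ 0 := fun U =>
    (Finset.prod_pos fun Q _ => by linarith [hN Q] : 0 < nS N U).ne'
  have e1 : (S.erase P) ∩ R₁ = S ∩ R₁ := RS_inter h1
  have e2 : (T.erase P) ∩ R₂ = T ∩ R₂ := RS_inter h2
  have e3 : ((S.erase P) ∩ (T.erase P)) \ (R₁ ∪ R₂) = ((S ∩ T) \ (R₁ ∪ R₂)).erase P := by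
    ext x
    simp only [Finset.mem_inter, Finset.mem_erase, Finset.mem_sdiff, Finset.mem_union]
    tauto
  have hR : P ∉ R₁ ∪ R₂ := by
    rw [Finset.mem_union]
    tauto
  unfold gg
  rw [e1, e2, e3]
  by_cases hS : P ∈ S
  · by_cases hT : P ∈ T
    · have h3 : P ∈ (S ∩ T) \ (R₁ ∪ R₂) := by
        rw [Finset.mem_sdiff, Finset.mem_inter]
        exact ⟨⟨hS, hT⟩, hR⟩
      rw [RS_nS_erase N hS, RS_nS_erase N hT, RS_nS_erase N h3]
      have := pos (S.erase P)
      have := pos (T.erase P)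
      field_simp
    · have h3 : P ∉ (S ∩ T) \ (R₁ ∪ R₂) := by
        rw [Finset.mem_sdiff, Finset.mem_inter]
        tauto
      rw [RS_nS_erase N hS, Finset.erase_eq_of_notMem hT, Finset.erase_eq_of_notMem h3]
      have := pos (S.erase P)
      have := pos T
      field_simp
  · have hT : P ∈ T := h.resolve_left hS
    have h3 : P ∉ (S ∩ T) \ (R₁ ∪ R₂) := by
      rw [Finset.mem_sdiff, Finset.mem_inter]
      tauto
    rw [RS_nS_erase N hT, Finset.erase_eq_of_notMem hS, Finset.erase_eq_of_notMem h3]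
    have := pos (T.erase P)
    have := pos S
    field_simp

open scoped Classical in
theorem RS_sum_erase {α : Type} (N : α → ℝ) (hN : ∀ P, 2 ≤ N P) (A : Finset α) (M : ℝ) (P : α)
    (g : Finset α → ℝ) (hg : ∀ T ∈ DS N A M, 0 ≤ g T) :
    ∑ T ∈ DS N A M, g (T.erase P) ≤ 2 * ∑ T ∈ DS N A M, g T := by
  have pos : ∀ U : Finset α, 0 < nS N U := fun U =>
    (Finset.prod_pos fun Q _ => by linarith [hN Q] : 0 < nS N U)
  have hdn : ∀ T ∈ DS N A M, T.erase P ∈ DS N A M := by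
    intro T hT
    unfold DS at hT ⊢
    rw [Finset.mem_filter, Finset.mem_powerset] at hT ⊢
    refine ⟨(Finset.erase_subset P T).trans hT.1, ?_⟩
    by_cases hP : P ∈ T
    · have h1 := RS_nS_erase N hP
      have h2 := pos (T.erase P)
      have h3 := hN P
      nlinarith [hT.2]
    · rw [Finset.erase_eq_of_notMem hP]
      exact hT.2
  rw [← Finset.sum_filter_add_sum_filter_not (DS N A M) (fun T => P ∈ T), two_mul]
  refine add_le_add ?_ ?_
  · have hinj : Set.InjOn (fun T : Finset α => T.erase P)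
        (((DS N A M).filter fun T => P ∈ T : Finset (Finset α)) : Set (Finset α)) := by
      intro T hT T' hT' h
      rw [Finset.mem_coe, Finset.mem_filter] at hT hT'
      have h' : T.erase P = T'.erase P := h
      rw [← Finset.insert_erase hT.2, ← Finset.insert_erase hT'.2, h']
    rw [← Finset.sum_image (f := g) hinj]
    refine Finset.sum_le_sum_of_subset_of_nonneg ?_ fun T hT _ => hg T hT
    intro T hT
    obtain ⟨U, hU, rfl⟩ := Finset.mem_image.1 hT
    exact hdn U (Finset.mem_filter.1 hU).1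
  · have h1 : ∑ T ∈ (DS N A M).filter (fun T => ¬ P ∈ T), g (T.erase P) =
        ∑ T ∈ (DS N A M).filter (fun T => ¬ P ∈ T), g T := by
      refine Finset.sum_congr rfl fun T hT => ?_
      rw [Finset.erase_eq_of_notMem (Finset.mem_filter.1 hT).2]
    rw [h1]
    exact Finset.sum_le_sum_of_subset_of_nonneg (Finset.filter_subset _ _) fun T hT _ => hg T hT

open scoped Classical in
/-- the pairs of sets which contain `P` -/
theorem RS_pairs {α : Type} (N : α → ℝ) (hN : ∀ P, 2 ≤ N P) (A R₁ R₂ : Finset α) (M : ℝ) {P : α}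
    [∀ S T : Finset α, Decidable (P ∈ S ∨ P ∈ T)] (h1 : P ∉ R₁) (h2 : P ∉ R₂) :
    ∑ S ∈ DS N A M, ∑ T ∈ DS N A M,
      (if P ∈ S ∨ P ∈ T then gg N R₁ R₂ S T / (nS N S * nS N T) else 0) ≤
    4 * (N P)⁻¹ * ∑ S ∈ DS N A M, ∑ T ∈ DS N A M, gg N R₁ R₂ S T / (nS N S * nS N T) := by
  have pos : ∀ U : Finset α, 0 < nS N U := fun U =>
    (Finset.prod_pos fun Q _ => by linarith [hN Q] : 0 < nS N U)
  have hP : 0 < N P := by linarith [hN P]
  have ha : ∀ S T : Finset α, 0 ≤ gg N R₁ R₂ S T / (nS N S * nS N T) := by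
    intro S T
    have e1 := pos (S ∩ R₁)
    have e2 := pos (T ∩ R₂)
    have e3 := pos ((S ∩ T) \ (R₁ ∪ R₂))
    have e4 := pos S
    have e5 := pos T
    unfold gg
    positivity
  have hP0 : 0 ≤ (N P)⁻¹ := by positivity
  calc ∑ S ∈ DS N A M, ∑ T ∈ DS N A M,
      (if P ∈ S ∨ P ∈ T then gg N R₁ R₂ S T / (nS N S * nS N T) else 0)
      ≤ ∑ S ∈ DS N A M, ∑ T ∈ DS N A M, gg N R₁ R₂ (S.erase P) (T.erase P) /
          (nS N (S.erase P) * nS N (T.erase P)) * (N P)⁻¹ := by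
        refine Finset.sum_le_sum fun S _ => Finset.sum_le_sum fun T _ => ?_
        by_cases h : P ∈ S ∨ P ∈ T
        · rw [if_pos h, RS_gg_erase N hN h1 h2 h]
        · rw [if_neg h]
          exact mul_nonneg (ha _ _) hP0
    _ = (N P)⁻¹ * ∑ S ∈ DS N A M, ∑ T ∈ DS N A M, gg N R₁ R₂ (S.erase P) (T.erase P) /
          (nS N (S.erase P) * nS N (T.erase P)) := by
        simp only [← Finset.sum_mul]
        rw [mul_comm]
    _ ≤ (N P)⁻¹ * ∑ S ∈ DS N A M, 2 * ∑ T ∈ DS N A M, gg N R₁ R₂ (S.erase P) T /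
          (nS N (S.erase P) * nS N T) := by
        refine mul_le_mul_of_nonneg_left (Finset.sum_le_sum fun S _ => ?_) hP0
        exact RS_sum_erase N hN A M P
          (fun T => gg N R₁ R₂ (S.erase P) T / (nS N (S.erase P) * nS N T)) fun T _ => ha _ _
    _ = 2 * (N P)⁻¹ * ∑ S ∈ DS N A M, (fun S' => ∑ T ∈ DS N A M, gg N R₁ R₂ S' T /
          (nS N S' * nS N T)) (S.erase P) := by
        rw [← Finset.mul_sum]
        ring
    _ ≤ 2 * (N P)⁻¹ * (2 * ∑ S ∈ DS N A M, ∑ T ∈ DS N A M, gg N R₁ R₂ S T /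
          (nS N S * nS N T)) := by
        refine mul_le_mul_of_nonneg_left ?_ (by positivity)
        exact RS_sum_erase N hN A M P
          (fun S' => ∑ T ∈ DS N A M, gg N R₁ R₂ S' T / (nS N S' * nS N T))
          fun S _ => Finset.sum_nonneg fun T _ => ha _ _
    _ = _ := by ring

/-! ### The estimate -/

theorem RS_mem_pf {K : Type} [Field K] [NumberField K] {m : Ideal (𝓞 K)} (hm : m ≠ ⊥)
    {P : PrI K} : P ∈ pf m ↔ m ≤ P.1 := by
  have hfin : {P : PrI K | m ≤ P.1}.Finite := by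
    refine Set.Finite.of_finite_image (f := Subtype.val) ?_ Subtype.val_injective.injOn
    refine (Ideal.finite_factors hm |>.image fun v => v.asIdeal).subset ?_
    rintro _ ⟨P, hP, rfl⟩
    exact ⟨⟨P.1, P.2.1, P.2.2⟩, Ideal.dvd_iff_le.2 hP, rfl⟩
  unfold pf
  rw [dif_pos hfin]
  simp

theorem RS_sum3 {ι κ : Type} (s : Finset ι) (t : Finset κ) (f : ι → ι → κ → ℝ) :
    ∑ S ∈ s, ∑ T ∈ s, ∑ P ∈ t, f S T P = ∑ P ∈ t, ∑ S ∈ s, ∑ T ∈ s, f S T P := by
  calc _ = ∑ S ∈ s, ∑ P ∈ t, ∑ T ∈ s, f S T P := Finset.sum_congr rfl fun S _ => Finset.sum_comm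
    _ = _ := Finset.sum_comm

open scoped Classical in
theorem RS_aux (hCX : T_CX) (hCB : T_CB) (hSQ : T_SQ) (hGU : T_GU) (hGC : T_GC) (hSQc : T_SQc) :
    T_RS := by
  intro K _ _ _
  obtain ⟨C₀, -, hS⟩ := hSQ K
  obtain ⟨C₃, hC₃⟩ := hS 0
  obtain ⟨C₁, hC₁0, hC₁⟩ := hSQc K
  obtain ⟨C₂, -, hC₂, -⟩ := hGU K
  refine ⟨|C₂| ^ 3 * (2 * (C₁ + 4 * |C₃|)) + 1, 4, by positivity,
    fun m Q M I J hm hQ hM hI hJ hIJ hIm hJm => ?_⟩
  have hD : Disjoint (pf I) (pf J) := ((hGC K ∅ ∅).2 I J hI hJ hIJ).1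
  obtain ⟨hB1, hB2⟩ := hCB (PrI K) np (PM K M) (pf I) (pf J) M two_le_np hM hD
  obtain ⟨-, hG1, hX⟩ := hCX (PrI K) np (PM K M) M two_le_np hM
  set L : ℝ := 1 + Real.log Q + Real.log M with hL
  have hlQ : 0 ≤ Real.log Q := Real.log_nonneg hQ
  have hlM : 0 ≤ Real.log M := Real.log_nonneg hM
  have hL1 : 1 ≤ L := by linarith
  have hI0 := nm_pos hI
  have hJ0 := nm_pos hJ
  have hIJ1 : 1 ≤ nm I * nm J := by
    have := mul_le_mul (one_le_nm hI) (one_le_nm hJ) zero_le_one hI0.le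
    linarith
  set w : ℝ := (nm I * nm J) ^ (-(1 / 2) : ℝ) with hw
  have hw0 : 0 ≤ w := Real.rpow_nonneg (by positivity) _
  have hrc : 0 ≤ rc m := Finset.sum_nonneg fun P _ => by
    have := np_pos P
    positivity
  -- the coefficients
  set a : Finset (PrI K) → Finset (PrI K) → ℝ := fun S T =>
    gg np (pf I) (pf J) S T / (nS np S * nS np T) with ha
  set c : Finset (PrI K) → Finset (PrI K) → ℂ := fun S T =>
    ((xw K M S * xw K M T * (gg np (pf I) (pf J) S T / (nS np S * nS np T)) : ℝ) : ℂ) with hc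
  set Z : Finset (PrI K) → Finset (PrI K) → ℝ := fun S T =>
    Q * gg np (pf I) (pf J) S T ^ 2 / (nS np S * nS np T * (nm I * nm J)) with hZ
  have ha0 : ∀ S ∈ DM K M, ∀ T ∈ DM K M, 0 ≤ a S T := by
    intro S hS' T hT'
    obtain ⟨g1, -⟩ := hB1 S hS' T hT'
    have hns : 0 < nS np S * nS np T := mul_pos (nS_pos S) (nS_pos T)
    have : 0 ≤ gg np (pf I) (pf J) S T := by linarith
    rw [ha]
    positivity
  have hcn : ∀ S ∈ DM K M, ∀ T ∈ DM K M, ‖c S T‖ ≤ a S T := by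
    intro S hS' T hT'
    have hx1 : |xw K M S| ≤ 1 := hX S (mem_DM.1 hS').1
    have hx2 : |xw K M T| ≤ 1 := hX T (mem_DM.1 hT').1
    have h5 : |xw K M S| * |xw K M T| ≤ 1 := by
      have := mul_le_mul hx1 hx2 (abs_nonneg _) zero_le_one
      simpa using this
    have h6 : (0 : ℝ) ≤ gg np (pf I) (pf J) S T / (nS np S * nS np T) := ha0 S hS' T hT'
    rw [hc]
    simp only
    rw [Complex.norm_real, Real.norm_eq_abs, abs_mul, abs_mul, abs_of_nonneg h6]
    exact mul_le_of_le_one_left h6 h5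
  have hZp : ∀ S ∈ DM K M, ∀ T ∈ DM K M, 0 < Z S T := by
    intro S hS' T hT'
    obtain ⟨g1, -⟩ := hB1 S hS' T hT'
    have hns : 0 < nS np S * nS np T := mul_pos (nS_pos S) (nS_pos T)
    have : 0 < gg np (pf I) (pf J) S T := by linarith
    rw [hZ]
    positivity
  have hZL : ∀ S ∈ DM K M, ∀ T ∈ DM K M, 1 + max (Real.log (Z S T)) 0 ≤ 2 * L := by
    intro S hS' T hT'
    obtain ⟨g1, g2⟩ := hB1 S hS' T hT'
    have hns : 0 < nS np S * nS np T := mul_pos (nS_pos S) (nS_pos T)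
    have hZpos := hZp S hS' T hT'
    have hZle : Z S T ≤ Q * M ^ 2 := by
      have e1 : Z S T = Q * (gg np (pf I) (pf J) S T ^ 2 / (nS np S * nS np T)) /
          (nm I * nm J) := by
        rw [hZ]
        field_simp
      rw [e1]
      refine (div_le_self (by positivity) hIJ1).trans ?_
      gcongr
    have e1 : Real.log (Z S T) ≤ Real.log (Q * M ^ 2) := Real.log_le_log hZpos hZle
    rw [Real.log_mul (by positivity) (by positivity), Real.log_pow] at e1
    push_cast at e1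
    have h2 : max (Real.log (Z S T)) 0 ≤ Real.log Q + 2 * Real.log M :=
      max_le e1 (by positivity)
    rw [hL]
    linarith
  -- good pairs
  set good : Finset (PrI K) → Prop := fun S => ∀ P ∈ S, ¬ m ≤ P.1 with hgood
  set bad : Finset (PrI K) → Finset (PrI K) → ℝ := fun S T =>
    ∑ P ∈ pf m, if P ∈ S ∨ P ∈ T then a S T else 0 with hbad
  have hbad0 : ∀ S ∈ DM K M, ∀ T ∈ DM K M, 0 ≤ bad S T := by
    intro S hS' T hT'
    refine Finset.sum_nonneg fun P _ => ?_
    by_cases h : P ∈ S ∨ P ∈ T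
    · rw [if_pos h]
      exact ha0 S hS' T hT'
    · rw [if_neg h]
  have hbad1 : ∀ S ∈ DM K M, ∀ T ∈ DM K M, ¬ (good S ∧ good T) → a S T ≤ bad S T := by
    intro S hS' T hT' h
    have : ∃ P, m ≤ P.1 ∧ (P ∈ S ∨ P ∈ T) := by
      by_contra h'
      push Not at h'
      refine h ⟨fun P hP hmP => ?_, fun P hP hmP => ?_⟩
      · exact (h' P hmP).1 hP
      · exact (h' P hmP).2 hP
    obtain ⟨P, hmP, hP⟩ := this
    have h1 := Finset.single_le_sum (s := pf m)
      (f := fun P => if P ∈ S ∨ P ∈ T then a S T else 0) (fun Q _ => by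
        by_cases h : Q ∈ S ∨ Q ∈ T
        · simp only [if_pos h]
          exact ha0 S hS' T hT'
        · simp only [if_neg h]
          exact le_rfl) ((RS_mem_pf hm).2 hmP)
    simp only [if_pos hP] at h1
    exact h1
  have hterm : ∀ S ∈ DM K M, ∀ T ∈ DM K M,
      ‖(if good S ∧ good T then c S T * Sm m (Z S T) else 0) - c S T * Sm (K := K) ⊤ (Z S T)‖ ≤
        2 * L * C₁ * rc m * a S T + 2 * L * |C₃| * bad S T := by
    intro S hS' T hT'
    have h1 := hcn S hS' T hT'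
    have h2 := hZL S hS' T hT'
    have h3 := hZp S hS' T hT'
    have h4 := ha0 S hS' T hT'
    have h5 := hbad0 S hS' T hT'
    have h6 : 0 ≤ 1 + max (Real.log (Z S T)) 0 := by
      have := le_max_right (Real.log (Z S T)) 0
      linarith
    by_cases h : good S ∧ good T
    · rw [if_pos h, ← mul_sub, norm_mul]
      have h7 : ‖Sm m (Z S T) - Sm (K := K) ⊤ (Z S T)‖ ≤ C₁ * (2 * L) * rc m := by
        refine (hC₁ m (Z S T) hm h3).trans ?_
        gcongr
      calc ‖c S T‖ * ‖Sm m (Z S T) - Sm (K := K) ⊤ (Z S T)‖ ≤ a S T * (C₁ * (2 * L) * rc m) :=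
            mul_le_mul h1 h7 (norm_nonneg _) h4
        _ = 2 * L * C₁ * rc m * a S T := by ring
        _ ≤ _ := by
            have : 0 ≤ 2 * L * |C₃| * bad S T := by positivity
            linarith
    · rw [if_neg h, zero_sub, norm_neg, norm_mul]
      have h7 : ‖Sm (K := K) ⊤ (Z S T)‖ ≤ |C₃| * (2 * L) := by
        refine (hC₃ ⊤ (Z S T) h3).trans ?_
        rw [pow_zero, min_self, mul_one]
        calc C₃ * (1 + max (Real.log (Z S T)) 0) ≤ |C₃| * (1 + max (Real.log (Z S T)) 0) := by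
              gcongr
              exact le_abs_self _
          _ ≤ _ := by gcongr
      calc ‖c S T‖ * ‖Sm (K := K) ⊤ (Z S T)‖ ≤ bad S T * (|C₃| * (2 * L)) :=
            mul_le_mul (h1.trans (hbad1 S hS' T hT' h)) h7 (norm_nonneg _) h5
        _ = 2 * L * |C₃| * bad S T := by ring
        _ ≤ _ := by
            have : 0 ≤ 2 * L * C₁ * rc m * a S T := by positivity
            linarith
  -- the sums
  have hDr : Dr m Q M I J = ((w : ℝ) : ℂ) * ∑ S ∈ DM K M, ∑ T ∈ DM K M,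
      (if good S ∧ good T then c S T * Sm m (Z S T) else 0) := by
    unfold Dr DMc
    congr 1
    rw [Finset.sum_filter]
    refine Finset.sum_congr rfl fun S _ => ?_
    by_cases hS' : good S
    · have hS2 : ∀ P ∈ S, ¬ m ≤ P.1 := hS'
      rw [if_pos hS2, Finset.sum_filter]
      refine Finset.sum_congr rfl fun T _ => ?_
      by_cases hT' : good T
      · have hT2 : ∀ P ∈ T, ¬ m ≤ P.1 := hT'
        rw [if_pos hT2, if_pos ⟨hS', hT'⟩]
      · have hT2 : ¬ ∀ P ∈ T, ¬ m ≤ P.1 := hT'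
        rw [if_neg hT2, if_neg fun h => hT' h.2]
    · have hS2 : ¬ ∀ P ∈ S, ¬ m ≤ P.1 := hS'
      rw [if_neg hS2]
      refine (Finset.sum_eq_zero fun T _ => ?_).symm
      rw [if_neg fun h => hS' h.1]
  have hDd : Dd (K := K) ⊤ Q M I J = ((w : ℝ) : ℂ) * ∑ S ∈ DM K M, ∑ T ∈ DM K M,
      c S T * Sm (K := K) ⊤ (Z S T) := rfl
  have hdiff : Dr m Q M I J - Dd (K := K) ⊤ Q M I J = ((w : ℝ) : ℂ) *
      ∑ S ∈ DM K M, ∑ T ∈ DM K M, ((if good S ∧ good T then c S T * Sm m (Z S T) else 0) -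
        c S T * Sm (K := K) ⊤ (Z S T)) := by
    rw [hDr, hDd, ← mul_sub]
    congr 1
    simp only [Finset.sum_sub_distrib]
  -- the sum of the bad pairs
  have hcop : ∀ P ∈ pf m, P ∉ pf I ∧ P ∉ pf J := by
    intro P hP
    have h1 := (RS_mem_pf hm).1 hP
    refine ⟨fun h => ?_, fun h => ?_⟩
    · have h2 := (RS_mem_pf hI).1 h
      have h3 : I ⊔ m ≤ P.1 := sup_le h2 h1
      rw [hIm] at h3
      exact P.2.1.ne_top (top_le_iff.1 h3)
    · have h2 := (RS_mem_pf hJ).1 h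
      have h3 : J ⊔ m ≤ P.1 := sup_le h2 h1
      rw [hJm] at h3
      exact P.2.1.ne_top (top_le_iff.1 h3)
  set sa : ℝ := ∑ S ∈ DM K M, ∑ T ∈ DM K M, a S T with hsa
  have hsb : ∑ S ∈ DM K M, ∑ T ∈ DM K M, bad S T ≤ 4 * rc m * sa := by
    have e1 : ∑ S ∈ DM K M, ∑ T ∈ DM K M, bad S T =
        ∑ P ∈ pf m, ∑ S ∈ DM K M, ∑ T ∈ DM K M, (if P ∈ S ∨ P ∈ T then a S T else 0) :=
      RS_sum3 (DM K M) (pf m) fun S T P => if P ∈ S ∨ P ∈ T then a S T else 0
    rw [e1]
    calc ∑ P ∈ pf m, ∑ S ∈ DM K M, ∑ T ∈ DM K M, (if P ∈ S ∨ P ∈ T then a S T else 0)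
        ≤ ∑ P ∈ pf m, 4 * (np P)⁻¹ * sa := by
          refine Finset.sum_le_sum fun P hP => ?_
          obtain ⟨h1, h2⟩ := hcop P hP
          exact RS_pairs np two_le_np (PM K M) (pf I) (pf J) M h1 h2
      _ = 4 * rc m * sa := by
          rw [← Finset.sum_mul, ← Finset.mul_sum]
          rfl
  have hs0 : 0 ≤ sa := Finset.sum_nonneg fun S hS' => Finset.sum_nonneg fun T hT' =>
    ha0 S hS' T hT'
  have hG3 : GS np (PM K M) M ≤ |C₂| * L := by
    refine (hC₂ M hM).trans ?_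
    have : 1 + Real.log M ≤ L := by rw [hL]; linarith
    calc C₂ * (1 + Real.log M) ≤ |C₂| * (1 + Real.log M) := by
          gcongr
          exact le_abs_self _
      _ ≤ |C₂| * L := by gcongr
  have hG0 : 0 ≤ GS np (PM K M) M := zero_le_one.trans hG1
  have hs1 : sa ≤ 2 ^ ((pf I).card + (pf J).card) * (|C₂| * L) ^ 3 := by
    have h1 : sa ≤ 2 ^ ((pf I).card + (pf J).card) * GS np (PM K M) M ^ 3 := hB2
    refine h1.trans ?_
    gcongr
  have hsum : ‖∑ S ∈ DM K M, ∑ T ∈ DM K M,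
      ((if good S ∧ good T then c S T * Sm m (Z S T) else 0) -
        c S T * Sm (K := K) ⊤ (Z S T))‖ ≤
      2 * L * (C₁ + 4 * |C₃|) * rc m * sa := by
    refine (norm_sum_le _ _).trans ?_
    refine (Finset.sum_le_sum fun S hS' => (norm_sum_le _ _).trans
      (Finset.sum_le_sum fun T hT' => hterm S hS' T hT')).trans ?_
    simp only [Finset.sum_add_distrib, ← Finset.mul_sum]
    have h1 : 2 * L * |C₃| * ∑ S ∈ DM K M, ∑ T ∈ DM K M, bad S T ≤
        2 * L * |C₃| * (4 * rc m * sa) := by gcongr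
    calc _ ≤ 2 * L * C₁ * rc m * sa + 2 * L * |C₃| * (4 * rc m * sa) := by
          have := h1
          linarith
      _ = _ := by ring
  rw [hdiff, norm_mul, Complex.norm_real, Real.norm_of_nonneg hw0]
  have hwt : wt (I, J) = 2 ^ ((pf I).card + (pf J).card) * w := rfl
  calc w * ‖_‖ ≤ w * (2 * L * (C₁ + 4 * |C₃|) * rc m * sa) :=
        mul_le_mul_of_nonneg_left hsum hw0
    _ ≤ w * (2 * L * (C₁ + 4 * |C₃|) * rc m *
        (2 ^ ((pf I).card + (pf J).card) * (|C₂| * L) ^ 3)) := by gcongr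
    _ = |C₂| ^ 3 * (2 * (C₁ + 4 * |C₃|)) * wt (I, J) * L ^ 4 * rc m := by
        rw [hwt]
        ring
    _ ≤ (|C₂| ^ 3 * (2 * (C₁ + 4 * |C₃|)) + 1) * wt (I, J) * L ^ 4 * rc m := by
        have : 0 ≤ wt (I, J) := by
          rw [hwt]
          positivity
        gcongr
        linarith

end Pool.Agent.H55.SM
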