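import Pool.Agent.H37.CV.All
import Pool.Agent.H55.SM.RSa

/-! RS: the primes of `m` do not matter. -/

set_option autoImplicit false

namespace Pool.Agent.H55.SM

open Pool.Agent.H20.SM Pool.Agent.H37.CV

theorem pf_RS (hSQc : T_SQc) : T_RS := RS_aux a_CX a_CB a_SQ a_GU a_GC hSQc

end Pool.Agent.H55.SM
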